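import Pool.Agent.Helper17.NN.Defs

/-!
# Smash-nilpotent idempotents are zero

On `X^(k+2)` the product of the cycles `p_(i, i+1)^* Γ` is the pull-back of the external power
`Γ × ... × Γ` on `(X × X)^(k+1)`, and its push-forward to the first and the last factor is the
composition of `k + 1` copies of `Γ`.
-/

set_option autoImplicit false

open CategoryTheory CategoryTheory.Limits

namespace Pool.Agent.Helper83.NN

open Pool.Agent.Helper17.NN

universe u v w

variable {𝒱 : Type u} [Category.{v} 𝒱] [HasBinaryProducts 𝒱]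

/-- `X^(k+2)` -/
noncomputable def chain (X : 𝒱) : ℕ → 𝒱
  | 0 => X ⨯ X
  | k + 1 => X ⨯ chain X k

/-- the first coordinate -/
noncomputable def head (X : 𝒱) : ∀ k : ℕ, chain X k ⟶ X
  | 0 => (prod.fst : X ⨯ X ⟶ X)
  | k + 1 => (prod.fst : X ⨯ chain X k ⟶ X)

/-- the first and the last coordinate -/
noncomputable def ends (X : 𝒱) : ∀ k : ℕ, chain X k ⟶ X ⨯ X
  | 0 => 𝟙 (X ⨯ X)
  | k + 1 => (prod.map (𝟙 X) (ends X k ≫ (prod.snd : X ⨯ X ⟶ X)) : X ⨯ chain X k ⟶ X ⨯ X)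

/-- the pairs of consecutive coordinates -/
noncomputable def link (X : 𝒱) : ∀ k : ℕ, chain X k ⟶ ChowTheory.pow (X ⨯ X) k
  | 0 => 𝟙 (X ⨯ X)
  | k + 1 => (prod.lift (prod.map (𝟙 X) (head X k)) ((prod.snd : X ⨯ chain X k ⟶ chain X k) ≫ link X k) :
      X ⨯ chain X k ⟶ (X ⨯ X) ⨯ ChowTheory.pow (X ⨯ X) k)

lemma ends_fst (X : 𝒱) (k : ℕ) : ends X k ≫ (prod.fst : X ⨯ X ⟶ X) = head X k := by
  cases k with
  | zero => exact Category.id_comp _
  | succ k =>
    change (prod.map (𝟙 X) (ends X k ≫ (prod.snd : X ⨯ X ⟶ X)) : X ⨯ chain X k ⟶ X ⨯ X) ≫ prod.fst = prod.fst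
    rw [prod.map_fst, Category.comp_id]

variable {S : ChowTheory.{u, v, w} 𝒱}

/-- the push-forward of the product of the `p_(i, i+1)^* Γ` -/
noncomputable def track (S : ChowTheory.{u, v, w} 𝒱) {X : 𝒱} (Γ : S.A (X ⨯ X)) (k : ℕ) : S.A (X ⨯ X) :=
  S.push (ends X k) (S.pull (link X k) (S.smash Γ k))

lemma track_zero (hS : S.Standard) {X : 𝒱} (Γ : S.A (X ⨯ X)) : track S Γ 0 = Γ := by
  change S.push (𝟙 (X ⨯ X)) (S.pull (𝟙 (X ⨯ X)) Γ) = Γ
  rw [hS.pull_id, hS.push_id]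

lemma track_step (hS : S.Standard) {X C P : 𝒱} (Γ : S.A (X ⨯ X)) (e : C ⟶ X ⨯ X) (l : C ⟶ P) (s : S.A P) :
    S.push (prod.map (𝟙 X) (e ≫ (prod.snd : X ⨯ X ⟶ X)))
      (S.pull (prod.lift (prod.map (𝟙 X) (e ≫ (prod.fst : X ⨯ X ⟶ X))) ((prod.snd : X ⨯ C ⟶ C) ≫ l))
        (S.ex Γ s)) = S.comp Γ (S.push e (S.pull l s)) := by
  rw [ChowTheory.ex, map_mul, ← hS.pull_comp, ← hS.pull_comp, prod.lift_fst, prod.lift_snd,
    hS.pull_comp prod.snd l, ChowTheory.comp, hS.base_change',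
    mul_comm (S.pull (prod.map (𝟙 X) (prod.fst : X ⨯ X ⟶ X)) Γ)]
  have h3 := hS.projection (prod.map (𝟙 X) e) (S.pull (prod.map (𝟙 X) (prod.fst : X ⨯ X ⟶ X)) Γ)
    (S.pull (prod.snd : X ⨯ C ⟶ C) (S.pull l s))
  rw [mul_comm (S.push (prod.map (𝟙 X) e) _), ← h3, ← hS.pull_comp (prod.map (𝟙 X) e), prod.map_map,
    Category.comp_id, ← hS.push_comp, prod.map_map, Category.comp_id]

lemma track_succ (hS : S.Standard) {X : 𝒱} (Γ : S.A (X ⨯ X)) (k : ℕ) :
    track S Γ (k + 1) = S.comp Γ (track S Γ k) := by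
  have h := track_step hS Γ (ends X k) (link X k) (S.smash Γ k)
  rw [ends_fst] at h
  exact h

/-- for an idempotent `e` the push-forward is `e` -/
lemma track_idem (hS : S.Standard) {X : 𝒱} {e : S.A (X ⨯ X)} (he : S.comp e e = e) (k : ℕ) :
    track S e k = e := by
  induction k with
  | zero => exact track_zero hS e
  | succ k ih => rw [track_succ hS, ih, he]

/-- An idempotent correspondence which is smash-nilpotent is zero. -/
theorem eq_zero_of_smash (hS : S.Standard) {X : 𝒱} {e : S.A (X ⨯ X)} (he : S.comp e e = e) {k : ℕ}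
    (h : S.smash e k = 0) : e = 0 := by
  rw [← track_idem hS he k, track, h, map_zero, map_zero]

/-- Voevodsky's conjecture implies that there are no phantoms. -/
theorem noPhantom_of_voevodsky (hS : S.Standard) (hV : S.Voevodsky) (X : 𝒱) : S.NoPhantom X := by
  intro e he hee
  obtain ⟨k, hk⟩ := hV (X ⨯ X) (S.dim X) e he
  exact eq_zero_of_smash hS hee hk

end Pool.Agent.Helper83.NN
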